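import Pool.Agent.W550.LG2.Stm

/-!
# LG2-LINE: Gronwall along kernel lines
-/

set_option autoImplicit false

open Set Filter Topology
open scoped ContDiff InnerProductSpace

namespace Pool.Agent.W577.LG2

open Pool.Agent.W617.LG Pool.Agent.W550.LG2

theorem gron_pos {F : Type*} [NormedAddCommGroup F] [NormedSpace ℝ F] {f f' : ℝ → F} {K ε : ℝ}
    (hf : ∀ s, |s| < ε → HasDerivAt f (f' s) s) (hb : ∀ s, |s| < ε → ‖f' s‖ ≤ K * ‖f s‖)
    (h0 : f 0 = 0) : ∀ s, 0 ≤ s → s < ε → f s = 0 := by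
  intro s hs hsε
  have hlt : ∀ x, 0 ≤ x → x ≤ s → |x| < ε := by
    intro x hx hx'
    rw [abs_of_nonneg hx]
    linarith only [hx', hsε]
  have h1 := norm_le_gronwallBound_of_norm_deriv_right_le (f := f) (f' := f') (δ := 0) (K := K)
    (ε := 0) (a := 0) (b := s)
    (fun x hx => (hf x (hlt x hx.1 hx.2)).continuousAt.continuousWithinAt)
    (fun x hx => (hf x (hlt x hx.1 hx.2.le)).hasDerivWithinAt)
    (by rw [h0]; simp)
    (fun x hx => by rw [add_zero]; exact hb x (hlt x hx.1 hx.2.le)) s ⟨hs, le_rfl⟩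
  rw [gronwallBound_ε0_δ0] at h1
  exact norm_le_zero_iff.1 h1

theorem gron {F : Type*} [NormedAddCommGroup F] [NormedSpace ℝ F] {f f' : ℝ → F} {K ε : ℝ}
    (hf : ∀ s, |s| < ε → HasDerivAt f (f' s) s) (hb : ∀ s, |s| < ε → ‖f' s‖ ≤ K * ‖f s‖)
    (h0 : f 0 = 0) : ∀ s, |s| < ε → f s = 0 := by
  intro s hs
  rcases le_or_gt 0 s with h | h
  · exact gron_pos hf hb h0 s h (lt_of_le_of_lt (le_abs_self s) hs)
  · have h1 := gron_pos (f := fun s => f (-s)) (f' := fun s => -(f' (-s))) (K := K) (ε := ε)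
      (fun s hs => by
        have h2 := (hf (-s) (by rwa [abs_neg])).scomp s (hasDerivAt_neg s)
        have h3 : HasDerivAt (fun s => f (-s)) ((-1 : ℝ) • f' (-s)) s := h2
        rwa [neg_one_smul] at h3)
      (fun s hs => by
        simp only [norm_neg]
        exact hb (-s) (by rwa [abs_neg]))
      (by simpa using h0) (-s) (by linarith only [h])
      (lt_of_le_of_lt (neg_le_abs s) hs)
    simpa using h1

theorem line (hKER : S_KER) (hLOC : S_LOC) : S_LINE := by
  intro q C τ hC r hMX y v hy hli w hw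
  obtain ⟨L, hL, hev⟩ := hLOC q C τ hC r hMX y hy ⟨v, hli⟩
  have hcont : ContinuousAt (fun s : ℝ => y + s • w) 0 := by fun_prop
  have hev2 : ∀ᶠ s in 𝓝 (0 : ℝ), ((∀ w', ‖fderiv ℝ C (y + s • w) w' w'‖ ≤
      L * ‖w'‖ * ‖C (y + s • w) w'‖) ∧
      (∀ w', C (y + s • w) w' = 0 → ∀ a, ∃ b, fderiv ℝ C (y + s • w) w' a = C (y + s • w) b ∧
        ‖b‖ ≤ L * ‖w'‖ * ‖a‖)) ∧ y + s • w ≠ 0 := by
    have h1 : Tendsto (fun s : ℝ => y + s • w) (𝓝 0) (𝓝 y) := by
      have := hcont.tendsto
      simpa using this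
    exact (h1.eventually hev).and (h1.eventually (isOpen_compl_singleton.mem_nhds hy))
  obtain ⟨ε, hε, hball⟩ := Metric.eventually_nhds_iff.1 hev2
  have hball' : ∀ s : ℝ, |s| < ε → _ := fun s hs => hball (by simpa [Real.dist_eq] using hs)
  have hder : ∀ s : ℝ, |s| < ε → HasDerivAt (fun s : ℝ => C (y + s • w))
      (fderiv ℝ C (y + s • w) w) s := by
    intro s hs
    have hne := (hball' s hs).2
    have h1 : HasFDerivAt C (fderiv ℝ C (y + s • w)) (y + s • w) :=
      ((hC.smooth _ hne).differentiableAt (by simp)).hasFDerivAt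
    have h2 : HasDerivAt (fun s : ℝ => y + s • w) w s := by
      have := ((hasDerivAt_id s).smul_const w).const_add y
      simpa using this
    exact HasFDerivAt.comp_hasDerivAt (F := E q) (E := E q →L[ℝ] E q →L[ℝ] E q) (l := C)
      (f := fun s : ℝ => y + s • w) s h1 h2
  have hz : ∀ s : ℝ, |s| < ε → C (y + s • w) w = 0 := by
    apply gron (f := fun s => C (y + s • w) w) (f' := fun s => fderiv ℝ C (y + s • w) w w)
      (K := L * ‖w‖)
    · intro s hs
      have := (hder s hs).clm_apply (hasDerivAt_const s w)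
      simpa using this
    · intro s hs
      exact (hball' s hs).1.1 w
    · simpa using hw
  have hker := hKER q C τ hC r hMX y v hy hli
  have hfun : ∀ l : (E q →L[ℝ] E q) →L[ℝ] ℝ,
      (∀ x ∈ Submodule.span ℝ (range fun i => C y (v i)), l x = 0) →
      ∀ s : ℝ, |s| < ε → l.comp (C (y + s • w)) = 0 := by
    intro l hl
    apply gron (f := fun s => l.comp (C (y + s • w)))
      (f' := fun s => l.comp (fderiv ℝ C (y + s • w) w)) (K := L * ‖w‖)
    · intro s hs
      have h1 : HasFDerivAt (fun T : E q →L[ℝ] (E q →L[ℝ] E q) => l.comp T)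
          (ContinuousLinearMap.compL ℝ (E q) (E q →L[ℝ] E q) ℝ l) (C (y + s • w)) :=
        (ContinuousLinearMap.compL ℝ (E q) (E q →L[ℝ] E q) ℝ l).hasFDerivAt
      exact HasFDerivAt.comp_hasDerivAt (F := E q →L[ℝ] E q →L[ℝ] E q)
        (E := E q →L[ℝ] ℝ) (l := fun T : E q →L[ℝ] (E q →L[ℝ] E q) => l.comp T) s h1 (hder s hs)
    · intro s hs
      apply ContinuousLinearMap.opNorm_le_bound
      · positivity
      · intro a
        obtain ⟨b, hb1, hb2⟩ := (hball' s hs).1.2 w (hz s hs) a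
        simp only [ContinuousLinearMap.comp_apply]
        rw [hb1]
        have h3 : ‖l (C (y + s • w) b)‖ ≤ ‖l.comp (C (y + s • w))‖ * ‖b‖ :=
          (l.comp (C (y + s • w))).le_opNorm b
        calc ‖l (C (y + s • w) b)‖ ≤ ‖l.comp (C (y + s • w))‖ * ‖b‖ := h3
          _ ≤ ‖l.comp (C (y + s • w))‖ * (L * ‖w‖ * ‖a‖) :=
              mul_le_mul_of_nonneg_left hb2 (norm_nonneg _)
          _ = _ := by ring
    · ext a
      simp only [zero_smul, add_zero, ContinuousLinearMap.comp_apply]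
      exact hl _ (hker.1 a)
  rw [Metric.eventually_nhds_iff]
  refine ⟨ε, hε, ?_⟩
  intro s hs
  have hs' : |s| < ε := by simpa [Real.dist_eq] using hs
  refine ⟨hz s hs', ?_⟩
  intro a
  by_contra hna
  obtain ⟨l, hl1, hl2⟩ := Submodule.exists_le_ker_of_notMem hna
  have h4 := hfun (LinearMap.toContinuousLinearMap l) (by
    intro x hx
    have := hl2 hx
    simpa using this) s hs'
  apply hl1
  have h5 := congrArg (fun T : E q →L[ℝ] ℝ => T a) h4
  simpa using h5

end Pool.Agent.W577.LG2
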